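import Pool.Agent.Lib.MP_2c27be_co.PS.Emb

/-!
The Euclidean distortion of a `D`-tree-stochastic `n`-point metric space is at most an absolute
constant times `D ^ 4 * (log n) ^ (2 / 5) * (log log n) ^ 2`, for all `D ≥ 1` and `n ≥ 3`.
-/

namespace Pool.Agent.Results.MP_2c27be_co.PowerSaving

open scoped ENNReal

/-- The Lipschitz norm. -/
noncomputable def lip {X Y : Type} [MetricSpace X] [MetricSpace Y] (f : X → Y) : ℝ≥0∞ :=
  ⨆ (x : X) (y : X) (_ : x ≠ y), edist (f x) (f y) / edist x y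

/-- The distortion of an injective map. -/
noncomputable def distortion {X Y : Type} [MetricSpace X] [MetricSpace Y] (f : X → Y)
    (hf : Function.Injective f) : ℝ≥0∞ :=
  lip f * lip (Equiv.ofInjective f hf).symm

/-- The Euclidean distortion. -/
noncomputable def c2 (X : Type) [MetricSpace X] : ℝ≥0∞ :=
  ⨅ (f : X → lp (fun _ : ℕ => ℝ) 2) (hf : Function.Injective f), distortion f hf

/-- Shortest-path distances on a set of vertices of a finite tree with positive edge weights. -/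
def IsTreeMetric {X : Type} (t : X → X → ℝ) : Prop :=
  ∃ (V : Type) (_ : Finite V) (T : SimpleGraph V) (w : Sym2 V → ℝ) (ι : X → V),
    T.IsTree ∧ (∀ e ∈ T.edgeSet, 0 < w e) ∧ Function.Injective ι ∧
      ∀ x y, t x y = ⨅ p : T.Path (ι x) (ι y), (p.1.edges.map w).sum

/-- `D`-tree-stochastic metric spaces. -/
def TreeStochastic (D : ℝ) (X : Type) [MetricSpace X] : Prop :=
  ∃ (k : ℕ) (t : Fin k → X → X → ℝ) (lam : Fin k → ℝ),
    (∀ i, IsTreeMetric (t i)) ∧ (∀ i x y, dist x y ≤ t i x y) ∧ (∀ i, 0 ≤ lam i) ∧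
      ∑ i, lam i = 1 ∧ ∀ x y, ∑ i, lam i * t i x y ≤ D * dist x y

lemma lip_le {X Y : Type} [MetricSpace X] [MetricSpace Y] {f : X → Y} {K : ℝ} (hK : 0 ≤ K)
    (h : ∀ x y, dist (f x) (f y) ≤ K * dist x y) : lip f ≤ ENNReal.ofReal K := by
  refine iSup_le fun x => iSup_le fun y => iSup_le fun _ => ENNReal.div_le_of_le_mul ?_
  rw [edist_dist, edist_dist, ← ENNReal.ofReal_mul hK]
  exact ENNReal.ofReal_le_ofReal (h x y)

open Pool.Agent.Lib.MP_2c27be_co in
theorem result : ∃ C : ℝ, ∀ D : ℝ, 1 ≤ D →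
    ∀ (X : Type) [MetricSpace X] [Fintype X], 3 ≤ Fintype.card X → TreeStochastic D X →
      c2 X ≤ ENNReal.ofReal (C * D ^ 4 * Real.log (Fintype.card X) ^ (2 / 5 : ℝ) *
        Real.log (Real.log (Fintype.card X)) ^ 2) := by
  refine ⟨10 ^ 26, fun D hD X _ _ hn ⟨k, t, lam, h1, h2, h3, h4, h5⟩ => ?_⟩
  obtain ⟨f, s, hs, hf⟩ := power hD X hn k lam t h3 h4 (fun i => by
    obtain ⟨V, _, T, w, ι, a1, a2, -, a3⟩ := h1 i
    have h := isTree_graph a1 a2
    exact ⟨fun x y => by rw [a3, a3]; exact h.symm _ _, fun x => by rw [a3]; exact h.zero _,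
      fun x y z u => by simp only [a3]; exact h.four _ _ _ _⟩) h2 h5
  have h0 := Real.log_natCast_nonneg (Fintype.card X)
  have hi : Function.Injective f := fun x y h => by
    have h6 := (hf x y).1
    rw [h, dist_self] at h6
    exact dist_le_zero.1 (nonpos_of_mul_nonpos_right h6 hs)
  refine (iInf₂_le f hi).trans ((mul_le_mul' (lip_le (by positivity) fun x y => (hf x y).2)
    (lip_le (K := s⁻¹) (by positivity) fun x y => ?_)).trans ?_)
  · obtain ⟨x, rfl⟩ := (Equiv.ofInjective f hi).surjective x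
    obtain ⟨y, rfl⟩ := (Equiv.ofInjective f hi).surjective y
    rw [Equiv.symm_apply_apply, Equiv.symm_apply_apply, le_inv_mul_iff₀ hs]
    exact (hf x y).1
  · rw [← ENNReal.ofReal_mul (by positivity), mul_comm s, mul_inv_cancel_right₀ hs.ne']

end Pool.Agent.Results.MP_2c27be_co.PowerSaving
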